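import Pool.Agent.K4W.StmtsP

/-!
# Squad K4W, row GPR: quadratic Gauss sums modulo a prime
-/

set_option autoImplicit false

namespace Pool.Agent.K4W.H40

open Complex
open Pool.Agent.Helper69_Weyl (ee W)

/-- the Gauss sum is a multiple of the quadratic character -/
theorem gs_char (p : ℕ) [Fact p.Prime] (hp2 : p ≠ 2) : ∃ g : ℂ, ∀ x : ℤ, ¬ (p : ℤ) ∣ x →
    GS p x 0 = ((quadraticChar (ZMod p) (x : ZMod p) : ℤ) : ℂ) * g := by
  have hpp : p.Prime := Fact.out
  have hp0 : (p : ℂ) ≠ 0 := by exact_mod_cast hpp.ne_zero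
  let ψ : AddChar (ZMod p) ℂ := ZMod.stdAddChar
  refine ⟨∑ n : ZMod p, ((quadraticChar (ZMod p) n : ℤ) : ℂ) * ψ n, ?_⟩
  intro x hx
  have hx0 : (x : ZMod p) ≠ 0 := by
    intro h
    exact hx ((ZMod.intCast_zmod_eq_zero_iff_dvd x p).1 h)
  -- the sum over `ZMod p`
  have h1 : GS p x 0 = ∑ z : ZMod p, ψ ((x : ZMod p) * z ^ 2) := by
    unfold GS
    refine Finset.sum_nbij' (fun c => (c : ZMod p)) (fun z => z.val) ?_ ?_ ?_ ?_ ?_
    · intro c _
      exact Finset.mem_univ _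
    · intro z _
      exact Finset.mem_range.2 (ZMod.val_lt z)
    · intro c hc
      exact ZMod.val_cast_of_lt (Finset.mem_range.1 hc)
    · intro z _
      exact ZMod.natCast_zmod_val z
    · intro c _
      have h2 : (x : ZMod p) * (c : ZMod p) ^ 2 = ((x * (c : ℤ) ^ 2 + 0 * (c : ℤ) : ℤ) : ZMod p) := by
        push_cast
        ring
      simp only [h2]
      show ee _ = ZMod.stdAddChar _
      rw [ZMod.stdAddChar_coe]
      unfold ee
      congr 1
      push_cast
      field_simp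
  -- count the square roots
  have h2 : ∑ z : ZMod p, ψ ((x : ZMod p) * z ^ 2) =
      ∑ n : ZMod p, (((quadraticChar (ZMod p) n : ℤ) : ℂ) + 1) * ψ ((x : ZMod p) * n) := by
    have hr : ringChar (ZMod p) ≠ 2 := by
      rw [ZMod.ringChar_zmod_n]
      exact hp2
    rw [← Finset.sum_fiberwise_of_maps_to (s := Finset.univ) (t := Finset.univ)
      (g := fun z : ZMod p => z ^ 2) (fun _ _ => Finset.mem_univ _)]
    refine Finset.sum_congr rfl fun n _ => ?_
    have h3 := quadraticChar_card_sqrts hr n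
    have h4 : ∑ z ∈ Finset.univ.filter (fun z : ZMod p => z ^ 2 = n), ψ ((x : ZMod p) * z ^ 2) =
        ∑ _z ∈ Finset.univ.filter (fun z : ZMod p => z ^ 2 = n), ψ ((x : ZMod p) * n) := by
      refine Finset.sum_congr rfl fun z hz => ?_
      rw [(Finset.mem_filter.1 hz).2]
    rw [h4, Finset.sum_const, nsmul_eq_mul]
    congr 1
    have h5 : (Finset.univ.filter (fun z : ZMod p => z ^ 2 = n)) =
        ({z : ZMod p | z ^ 2 = n} : Set (ZMod p)).toFinset := by
      ext z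
      simp
    rw [h5]
    have h6 : (((({z : ZMod p | z ^ 2 = n} : Set (ZMod p)).toFinset.card : ℕ) : ℤ) : ℂ) =
        ((quadraticChar (ZMod p) n + 1 : ℤ) : ℂ) := by rw [h3]
    push_cast at h6
    exact h6
  have h3 : ∑ n : ZMod p, ψ ((x : ZMod p) * n) = 0 := by
    have h4 := AddChar.sum_mulShift (R' := ℂ) (x : ZMod p) (ZMod.isPrimitive_stdAddChar p)
    rw [if_neg hx0, Nat.cast_zero] at h4
    rw [← h4]
    exact Finset.sum_congr rfl fun n _ => by rw [mul_comm]
  rw [h1, h2]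
  have h4 : ∑ n : ZMod p, (((quadraticChar (ZMod p) n : ℤ) : ℂ) + 1) * ψ ((x : ZMod p) * n) =
      ∑ n : ZMod p, ((quadraticChar (ZMod p) n : ℤ) : ℂ) * ψ ((x : ZMod p) * n) := by
    simp only [add_mul, one_mul, Finset.sum_add_distrib, h3, add_zero]
  rw [h4, Finset.mul_sum]
  refine Fintype.sum_bijective (fun n : ZMod p => (x : ZMod p) * n)
    (mulLeft_bijective₀ _ hx0) _ _ fun n => ?_
  rw [← mul_assoc]
  congr 1
  rw [map_mul]
  have h5 := quadraticChar_sq_one' hx0
  have h6 : quadraticChar (ZMod p) (x : ZMod p) * quadraticChar (ZMod p) (x : ZMod p) = 1 := by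
    rw [← map_mul, ← sq]
    exact h5
  have h7 : ((quadraticChar (ZMod p) (x : ZMod p) : ℤ) : ℂ) *
      ((quadraticChar (ZMod p) (x : ZMod p) : ℤ) : ℂ) = 1 := by
    exact_mod_cast h6
  push_cast
  rw [← mul_assoc, h7, one_mul]

/-- **GPR** -/
theorem gpr : GprStmt := by
  intro p a b c hp hp2 ha hb hc
  have : Fact p.Prime := ⟨hp⟩
  obtain ⟨g, hg⟩ := gs_char p hp2
  have hpi : Prime (p : ℤ) := Nat.prime_iff_prime_int.1 hp
  have hac : ¬ (p : ℤ) ∣ a * c := fun h => (hpi.dvd_or_dvd h).elim ha hc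
  have hbc : ¬ (p : ℤ) ∣ b * c := fun h => (hpi.dvd_or_dvd h).elim hb hc
  have habc : ¬ (p : ℤ) ∣ a * b * c := fun h => (hpi.dvd_or_dvd h).elim
    (fun h => (hpi.dvd_or_dvd h).elim ha hb) hc
  rw [hg _ habc, hg _ hc, hg _ hac, hg _ hbc]
  push_cast
  simp only [map_mul]
  push_cast
  ring

end Pool.Agent.K4W.H40
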