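import Pool.Agent.K4W.StmtsP

/-!
# Squad K4W, row PFZ: the main formula in terms of `Z`
-/

set_option autoImplicit false

namespace Pool.Agent.K4W.H40

open Complex
open Pool.Agent.Helper69_Weyl (ee W)

theorem nondiv {z R μ n : ℝ} (hz : 60 ≤ z) (hexp : 19 * (z ^ 1168 * Real.exp (-z)) ≤ 1)
    (h1 : z ^ 166 ≤ R) (h2 : R ≤ 9 * z ^ 1084) (h3 : z ^ 1000 < μ) (hn : 0 ≤ n) :
    Real.sqrt (n / (2 * R)) * ((1 + R / μ) +
      Real.exp (-(Real.pi * (z ^ 1085) ^ 2 / (2 * R ^ 2))) * (1 + 2 * R)) ≤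
        Real.sqrt n * (1 / (4 * z ^ 82)) := by
  have hz0 : 0 < z := by linarith
  have hz1 : 1 ≤ z := by linarith
  have hR0 : 0 < R := lt_of_lt_of_le (by positivity) h1
  have hμ0 : 0 < μ := lt_trans (by positivity) h3
  have hR1 : 1 ≤ R := le_trans (one_le_pow₀ hz1) h1
  -- `s = 1 / sqrt (2 R)`
  have hs : Real.sqrt (n / (2 * R)) = Real.sqrt n * (1 / Real.sqrt (2 * R)) := by
    rw [Real.sqrt_div hn, mul_one_div]
  have hs1 : 1 / Real.sqrt (2 * R) ≤ 1 / z ^ 83 := by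
    refine one_div_le_one_div_of_le (by positivity) ?_
    refine Real.le_sqrt_of_sq_le ?_
    have e : (z ^ 83) ^ 2 = z ^ 166 := by rw [← pow_mul]
    rw [e]
    linarith
  have hs2 : 1 / Real.sqrt (2 * R) * R ≤ 3 * z ^ 542 := by
    have h4 : 1 / Real.sqrt (2 * R) ≤ 1 / Real.sqrt R := by
      refine one_div_le_one_div_of_le (Real.sqrt_pos.2 hR0) ?_
      exact Real.sqrt_le_sqrt (by linarith)
    have h5 : 1 / Real.sqrt R * R = Real.sqrt R := by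
      rw [one_div_mul_eq_div, Real.div_sqrt]
    have h6 : Real.sqrt R ≤ 3 * z ^ 542 := by
      refine Real.sqrt_le_iff.2 ⟨by positivity, ?_⟩
      rw [mul_pow, ← pow_mul]
      have : (0 : ℝ) ≤ z ^ 1084 := by positivity
      norm_num
      linarith
    calc 1 / Real.sqrt (2 * R) * R ≤ 1 / Real.sqrt R * R := by gcongr
      _ = Real.sqrt R := h5
      _ ≤ _ := h6
  have hs0 : 0 ≤ 1 / Real.sqrt (2 * R) := by positivity
  have hs3 : 1 / Real.sqrt (2 * R) ≤ 1 := hs1.trans (by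
    rw [div_le_one (by positivity)]
    exact one_le_pow₀ hz1)
  have t2 : 1 / Real.sqrt (2 * R) * (R / μ) ≤ 1 / z ^ 84 := by
    rw [← mul_div_assoc, div_le_div_iff₀ hμ0 (by positivity)]
    have h4 : 3 * z ^ 542 * z ^ 84 ≤ z ^ 1000 := by
      have e : z ^ 1000 = z ^ 374 * (z ^ 542 * z ^ 84) := by rw [← pow_add, ← pow_add]
      rw [e, mul_assoc]
      have h5 : (3 : ℝ) ≤ z ^ 374 := by
        calc (3 : ℝ) ≤ z := by linarith
          _ = z ^ 1 := (pow_one z).symm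
          _ ≤ z ^ 374 := pow_le_pow_right₀ hz1 (by norm_num)
      gcongr
    calc 1 / Real.sqrt (2 * R) * R * z ^ 84 ≤ 3 * z ^ 542 * z ^ 84 := by gcongr
      _ ≤ z ^ 1000 := h4
      _ ≤ 1 * μ := by linarith
  have hE : Real.exp (-(Real.pi * (z ^ 1085) ^ 2 / (2 * R ^ 2))) ≤ Real.exp (-z) := by
    rw [Real.exp_le_exp, neg_le_neg_iff, le_div_iff₀ (by positivity)]
    have h4 : R ^ 2 ≤ 81 * z ^ 2168 := by
      calc R ^ 2 ≤ (9 * z ^ 1084) ^ 2 := by gcongr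
        _ = 81 * z ^ 2168 := by rw [mul_pow, ← pow_mul]; norm_num
    have h5 : (z ^ 1085) ^ 2 = z * (z * z ^ 2168) := by
      rw [← pow_mul, ← pow_succ', ← pow_succ']
    have h6 : (3 : ℝ) < Real.pi := Real.pi_gt_three
    rw [h5]
    have h7 : (0 : ℝ) ≤ z ^ 2168 := by positivity
    calc z * (2 * R ^ 2) ≤ z * (2 * (81 * z ^ 2168)) := by gcongr
      _ = z * (162 * z ^ 2168) := by ring
      _ ≤ z * (3 * z * z ^ 2168) := by
          have : (162 : ℝ) ≤ 3 * z := by linarith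
          gcongr
      _ = 3 * (z * (z * z ^ 2168)) := by ring
      _ ≤ Real.pi * (z * (z * z ^ 2168)) := by gcongr
  have t3 : 1 / Real.sqrt (2 * R) *
      (Real.exp (-(Real.pi * (z ^ 1085) ^ 2 / (2 * R ^ 2))) * (1 + 2 * R)) ≤ 1 / z ^ 84 := by
    have h4 : 1 + 2 * R ≤ 19 * z ^ 1084 := by
      have : (1 : ℝ) ≤ z ^ 1084 := one_le_pow₀ hz1
      linarith
    have h5 : 1 / Real.sqrt (2 * R) *
        (Real.exp (-(Real.pi * (z ^ 1085) ^ 2 / (2 * R ^ 2))) * (1 + 2 * R)) ≤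
          1 * (Real.exp (-z) * (19 * z ^ 1084)) := by gcongr
    refine h5.trans ?_
    rw [le_div_iff₀ (by positivity)]
    have e : z ^ 1168 = z ^ 1084 * z ^ 84 := by rw [← pow_add]
    rw [e] at hexp
    linarith
  rw [hs, mul_assoc]
  refine mul_le_mul_of_nonneg_left ?_ (Real.sqrt_nonneg n)
  have e1 : 1 / Real.sqrt (2 * R) * ((1 + R / μ) +
      Real.exp (-(Real.pi * (z ^ 1085) ^ 2 / (2 * R ^ 2))) * (1 + 2 * R)) =
      1 / Real.sqrt (2 * R) + 1 / Real.sqrt (2 * R) * (R / μ) + 1 / Real.sqrt (2 * R) *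
      (Real.exp (-(Real.pi * (z ^ 1085) ^ 2 / (2 * R ^ 2))) * (1 + 2 * R)) := by ring
  rw [e1]
  have e84 : 1 / z ^ 84 ≤ 1 / z ^ 83 :=
    one_div_le_one_div_of_le (by positivity) (pow_le_pow_right₀ hz1 (by norm_num))
  have e83 : 3 * (1 / z ^ 83) ≤ 1 / (4 * z ^ 82) := by
    rw [mul_one_div, div_le_div_iff₀ (by positivity) (by positivity), pow_succ z 82]
    have : (0 : ℝ) < z ^ 82 := by positivity
    nlinarith
  linarith

theorem divi {z R μ n : ℝ} (hz : 60 ≤ z) (h1 : z ^ 166 ≤ R) (h2 : R ≤ 9 * z ^ 1084)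
    (h3 : z ^ 1000 < μ) (h3' : μ ≤ 2 * z ^ 1000) (hn : 0 ≤ n) :
    Real.sqrt (n * μ / (2 * R)) * (1 + R / μ) ≤ Real.sqrt n * (10 * z ^ 501) := by
  have hz0 : 0 < z := by linarith
  have hz1 : 1 ≤ z := by linarith
  have hR0 : 0 < R := lt_of_lt_of_le (by positivity) h1
  have hμ0 : 0 < μ := lt_trans (by positivity) h3
  have h4 : Real.sqrt (n * μ / (2 * R)) ≤ Real.sqrt n * z ^ 417 := by
    rw [mul_div_assoc, Real.sqrt_mul hn]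
    refine mul_le_mul_of_nonneg_left ?_ (Real.sqrt_nonneg n)
    refine Real.sqrt_le_iff.2 ⟨by positivity, ?_⟩
    rw [div_le_iff₀ (by positivity), ← pow_mul]
    have e : z ^ 1000 = z ^ (417 * 2) * z ^ 166 := by rw [← pow_add]
    calc μ ≤ 2 * z ^ 1000 := h3'
      _ = z ^ (417 * 2) * (2 * z ^ 166) := by rw [e]; ring
      _ ≤ z ^ (417 * 2) * (2 * R) := by gcongr
  have h5 : 1 + R / μ ≤ 10 * z ^ 84 := by
    have h6 : R / μ ≤ 9 * z ^ 84 := by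
      rw [div_le_iff₀ hμ0]
      have e : z ^ 1084 = z ^ 84 * z ^ 1000 := by rw [← pow_add]
      calc R ≤ 9 * z ^ 1084 := h2
        _ = 9 * z ^ 84 * z ^ 1000 := by rw [e]; ring
        _ ≤ 9 * z ^ 84 * μ := by gcongr
    have h7 : (1 : ℝ) ≤ z ^ 84 := one_le_pow₀ hz1
    linarith
  have e : z ^ 501 = z ^ 417 * z ^ 84 := by rw [← pow_add]
  calc Real.sqrt (n * μ / (2 * R)) * (1 + R / μ)
      ≤ (Real.sqrt n * z ^ 417) * (10 * z ^ 84) := by gcongr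
    _ = Real.sqrt n * (10 * z ^ 501) := by rw [e]; ring

/-- **PFZ** -/
theorem pfz (hPmn : PmnStmt) (hRzb : RzbStmt) (hDvs : DvsStmt) : PfzStmt := by
  have hlim := Real.tendsto_pow_mul_exp_neg_atTop_nhds_zero 1168
  have hev : ∀ᶠ x : ℝ in Filter.atTop, x ^ 1168 * Real.exp (-x) < 1 / 19 :=
    hlim.eventually (gt_mem_nhds (by norm_num))
  obtain ⟨X, hX⟩ := Filter.eventually_atTop.1 hev
  refine ⟨max 60 ⌈X⌉₊, ?_⟩
  intro Z N r S ψ v β b u hZ hN hNZ hPS hPR hψ hu hv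
  obtain ⟨hcard, hS⟩ := hPS
  obtain ⟨hr, _, hrN, hcop, _, _⟩ := id hPR
  have hZ60 : 60 ≤ Z := (le_max_left _ _).trans hZ
  have hz : (60 : ℝ) ≤ (Z : ℝ) := by exact_mod_cast hZ60
  have hz0 : (0 : ℝ) < (Z : ℝ) := by linarith
  have hz1 : (1 : ℝ) ≤ (Z : ℝ) := by linarith
  have hXZ : X ≤ (Z : ℝ) := (Nat.le_ceil X).trans (by exact_mod_cast (le_max_right _ _).trans hZ)
  have hexp : 19 * ((Z : ℝ) ^ 1168 * Real.exp (-(Z : ℝ))) ≤ 1 := by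
    have := hX _ hXZ
    linarith
  have hr0 : 0 < r := hr.pos
  have hNr : (0 : ℝ) ≤ (N : ℝ) := Nat.cast_nonneg N
  have h1 : (r : ℝ) ≤ 2 * (N : ℝ) * (Z : ℝ) ^ 84 := by exact_mod_cast hrN
  have hR : ∀ μ ∈ S, (Z : ℝ) ^ 166 ≤ RR N r ((μ : ℝ) * β) ∧
      RR N r ((μ : ℝ) * β) ≤ 9 * (Z : ℝ) ^ 1084 := fun μ hμ =>
    hRzb Z N r μ b β (by omega) hN hPR (hS μ hμ).2.1 (hS μ hμ).2.2
  have hμ1 : ∀ μ ∈ S, (Z : ℝ) ^ 1000 < (μ : ℝ) := fun μ hμ => by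
    exact_mod_cast (hS μ hμ).2.1
  have hμ2 : ∀ μ ∈ S, (μ : ℝ) ≤ 2 * (Z : ℝ) ^ 1000 := fun μ hμ => by
    exact_mod_cast (hS μ hμ).2.2
  have h5N : (N : ℝ) ≤ 2 * (Z : ℝ) ^ 64000 := by exact_mod_cast hNZ
  have hrZ : r < Z ^ 65000 := by
    have h4 : (r : ℝ) < (Z : ℝ) ^ 65000 := by
      have e : (Z : ℝ) ^ 65000 = (Z : ℝ) ^ 916 * ((Z : ℝ) ^ 64000 * (Z : ℝ) ^ 84) := by
        rw [← pow_add, ← pow_add]
      have h6 : (4 : ℝ) < (Z : ℝ) ^ 916 := by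
        calc (4 : ℝ) < (Z : ℝ) := by linarith
          _ = (Z : ℝ) ^ 1 := (pow_one _).symm
          _ ≤ (Z : ℝ) ^ 916 := pow_le_pow_right₀ hz1 (by norm_num)
      have h7 : (0 : ℝ) < (Z : ℝ) ^ 64000 * (Z : ℝ) ^ 84 := by positivity
      calc (r : ℝ) ≤ 2 * (N : ℝ) * (Z : ℝ) ^ 84 := h1
        _ ≤ 2 * (2 * (Z : ℝ) ^ 64000) * (Z : ℝ) ^ 84 := by gcongr
        _ = 4 * ((Z : ℝ) ^ 64000 * (Z : ℝ) ^ 84) := by ring
        _ < (Z : ℝ) ^ 65000 := by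
            rw [e]
            exact mul_lt_mul_of_pos_right h6 h7
    exact_mod_cast h4
  have hd := hDvs Z r S (by omega) hr0 hrZ (fun μ hμ => ⟨(hS μ hμ).1, (hS μ hμ).2.1⟩)
  have hmain := hPmn N r (Z ^ 1085) S ψ v β b u hN hr (fun μ hμ => (hS μ hμ).1) hψ
    (Int.isCoprime_iff_gcd_eq_one.2 hcop) hu hv
  refine hmain.trans ?_
  have hcardR : (Z : ℝ) ^ 999 ≤ (S.card : ℝ) := by exact_mod_cast hcard
  -- the divisors
  have s1 : ∑ μ ∈ S.filter (fun μ => μ ∣ r),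
      Real.sqrt ((N : ℝ) * (μ : ℝ) / (2 * RR N r ((μ : ℝ) * β))) *
        (1 + RR N r ((μ : ℝ) * β) / (μ : ℝ)) ≤
      (S.card : ℝ) * Real.sqrt (N : ℝ) / (Z : ℝ) ^ 82 / 4 := by
    have h4 : ∑ μ ∈ S.filter (fun μ => μ ∣ r),
        Real.sqrt ((N : ℝ) * (μ : ℝ) / (2 * RR N r ((μ : ℝ) * β))) *
          (1 + RR N r ((μ : ℝ) * β) / (μ : ℝ)) ≤
        (S.filter (fun μ => μ ∣ r)).card • (Real.sqrt (N : ℝ) * (10 * (Z : ℝ) ^ 501)) := by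
      refine Finset.sum_le_card_nsmul _ _ _ fun μ hμ => ?_
      have hμS := (Finset.mem_filter.1 hμ).1
      exact divi hz (hR μ hμS).1 (hR μ hμS).2 (hμ1 μ hμS) (hμ2 μ hμS) hNr
    refine h4.trans ?_
    rw [nsmul_eq_mul]
    have h5 : ((S.filter (fun μ => μ ∣ r)).card : ℝ) ≤ 65 := by exact_mod_cast hd
    have h6 : 65 * (10 * (Z : ℝ) ^ 501) ≤ (S.card : ℝ) / (Z : ℝ) ^ 82 / 4 := by
      rw [div_div, le_div_iff₀ (by positivity)]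
      have e : (Z : ℝ) ^ 999 = (Z : ℝ) ^ 416 * ((Z : ℝ) ^ 501 * (Z : ℝ) ^ 82) := by
        rw [← pow_add, ← pow_add]
      have h7 : (2600 : ℝ) ≤ (Z : ℝ) ^ 416 := by
        calc (2600 : ℝ) ≤ (60 : ℝ) ^ 2 := by norm_num
          _ ≤ (Z : ℝ) ^ 2 := by gcongr
          _ ≤ (Z : ℝ) ^ 416 := pow_le_pow_right₀ hz1 (by norm_num)
      have h8 : (0 : ℝ) ≤ (Z : ℝ) ^ 501 * (Z : ℝ) ^ 82 := by positivity
      calc 65 * (10 * (Z : ℝ) ^ 501) * ((Z : ℝ) ^ 82 * 4)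
          = 2600 * ((Z : ℝ) ^ 501 * (Z : ℝ) ^ 82) := by ring
        _ ≤ (Z : ℝ) ^ 416 * ((Z : ℝ) ^ 501 * (Z : ℝ) ^ 82) := by gcongr
        _ = (Z : ℝ) ^ 999 := e.symm
        _ ≤ _ := hcardR
    have h9 := Real.sqrt_nonneg (N : ℝ)
    calc ((S.filter (fun μ => μ ∣ r)).card : ℝ) * (Real.sqrt (N : ℝ) * (10 * (Z : ℝ) ^ 501))
        ≤ 65 * (Real.sqrt (N : ℝ) * (10 * (Z : ℝ) ^ 501)) := by gcongr
      _ = Real.sqrt (N : ℝ) * (65 * (10 * (Z : ℝ) ^ 501)) := by ring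
      _ ≤ Real.sqrt (N : ℝ) * ((S.card : ℝ) / (Z : ℝ) ^ 82 / 4) := by gcongr
      _ = (S.card : ℝ) * Real.sqrt (N : ℝ) / (Z : ℝ) ^ 82 / 4 := by ring
  -- the other primes
  have s2 : ∑ μ ∈ S.filter (fun μ => ¬ μ ∣ r),
      Real.sqrt ((N : ℝ) / (2 * RR N r ((μ : ℝ) * β))) *
        ((1 + RR N r ((μ : ℝ) * β) / (μ : ℝ)) +
          Real.exp (-(Real.pi * ((Z ^ 1085 : ℕ) : ℝ) ^ 2 / (2 * (RR N r ((μ : ℝ) * β)) ^ 2))) *
            (1 + 2 * RR N r ((μ : ℝ) * β))) ≤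
      (S.card : ℝ) * Real.sqrt (N : ℝ) / (Z : ℝ) ^ 82 / 4 := by
    have h4 : ∑ μ ∈ S.filter (fun μ => ¬ μ ∣ r),
        Real.sqrt ((N : ℝ) / (2 * RR N r ((μ : ℝ) * β))) *
          ((1 + RR N r ((μ : ℝ) * β) / (μ : ℝ)) +
            Real.exp (-(Real.pi * ((Z ^ 1085 : ℕ) : ℝ) ^ 2 / (2 * (RR N r ((μ : ℝ) * β)) ^ 2))) *
              (1 + 2 * RR N r ((μ : ℝ) * β))) ≤
        (S.filter (fun μ => ¬ μ ∣ r)).card • (Real.sqrt (N : ℝ) * (1 / (4 * (Z : ℝ) ^ 82))) := by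
      refine Finset.sum_le_card_nsmul _ _ _ fun μ hμ => ?_
      have hμS := (Finset.mem_filter.1 hμ).1
      rw [Nat.cast_pow]
      exact nondiv hz hexp (hR μ hμS).1 (hR μ hμS).2 (hμ1 μ hμS) hNr
    refine h4.trans ?_
    rw [nsmul_eq_mul]
    have h5 : ((S.filter (fun μ => ¬ μ ∣ r)).card : ℝ) ≤ (S.card : ℝ) := by
      exact_mod_cast Finset.card_filter_le _ _
    calc ((S.filter (fun μ => ¬ μ ∣ r)).card : ℝ) *
          (Real.sqrt (N : ℝ) * (1 / (4 * (Z : ℝ) ^ 82)))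
        ≤ (S.card : ℝ) * (Real.sqrt (N : ℝ) * (1 / (4 * (Z : ℝ) ^ 82))) := by gcongr
      _ = (S.card : ℝ) * Real.sqrt (N : ℝ) / (Z : ℝ) ^ 82 / 4 := by
          field_simp
  -- the size of `N`
  have s3 : (S.card : ℝ) * Real.sqrt (N : ℝ) / (Z : ℝ) ^ 82 / 2 ≤ (S.card : ℝ) * (Z : ℝ) ^ 31918 := by
    have h4 : Real.sqrt (N : ℝ) ≤ 2 * (Z : ℝ) ^ 32000 := by
      refine Real.sqrt_le_iff.2 ⟨by positivity, ?_⟩
      have e : (2 * (Z : ℝ) ^ 32000) ^ 2 = 4 * (Z : ℝ) ^ 64000 := by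
        rw [mul_pow, ← pow_mul]
        norm_num
      rw [e]
      have : (0 : ℝ) ≤ (Z : ℝ) ^ 64000 := by positivity
      linarith
    have e : (Z : ℝ) ^ 32000 = (Z : ℝ) ^ 31918 * (Z : ℝ) ^ 82 := by rw [← pow_add]
    rw [e] at h4
    rw [div_div, div_le_iff₀ (by positivity)]
    calc (S.card : ℝ) * Real.sqrt (N : ℝ)
        ≤ (S.card : ℝ) * (2 * ((Z : ℝ) ^ 31918 * (Z : ℝ) ^ 82)) := by gcongr
      _ = (S.card : ℝ) * (Z : ℝ) ^ 31918 * ((Z : ℝ) ^ 82 * 2) := by ring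
  linarith

end Pool.Agent.K4W.H40
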